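import Pool.Agent.Helper234.LInf.Nec
import Pool.Agent.Helper234.LInf.Cor
import Pool.Agent.Helper234.LInf.Psi
import Pool.Agent.Helper234.LInf.Der
import Pool.Agent.Helper234.LInf.ShowEq
import Pool.Agent.Helper234.LInfS.Suff

open MeasureTheory Filter Topology

namespace Pool.Agent.Results.MP_85d466_an.Classification

open Pool.Agent.Helper234.LInf Pool.Agent.Helper234.LInf.Show

universe u

/-- Necessity, for spaces without a copy of the space of bounded scalar sequences. -/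
theorem necessity (𝕜 : Type) [RCLike 𝕜] (X : Type u) [NormedAddCommGroup X] [NormedSpace 𝕜 X]
    [CompleteSpace X] (hX : ¬ Show.ContainsLinf 𝕜 X) (h : Isomorphic 𝕜 X) :
    LimitExtends 𝕜 X ∧ DerivativeExtends 𝕜 X := by
  let _ : NormedSpace ℝ X := NormedSpace.restrictScalars ℝ 𝕜 X
  have _ : IsScalarTower ℝ 𝕜 X := RestrictScalars.isScalarTower ℝ 𝕜 X
  rw [show_linf] at hX
  rw [show_iso] at h
  obtain ⟨e⟩ := h
  obtain ⟨T, P, hPT, hAC⟩ := ac_reduction 𝕜 hX (e : Lp X ⊤ I01 →L[𝕜] lp (fun _ : ℕ => X) ⊤)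
    (e.symm : lp (fun _ : ℕ => X) ⊤ →L[𝕜] Lp X ⊤ I01) (fun f => e.symm_apply_apply f)
  have hl1 : ∀ n : ℕ, ∀ ε > (0 : ℝ), ∃ δ > (0 : ℝ), ∀ f : Lp X ⊤ I01, ‖f‖ ≤ 1 →
      ∫ t, ‖f t‖ ∂I01 ≤ δ → ‖(T f) n‖ ≤ ε := by
    intro n
    exact ac_l1 𝕜 ((evalC 𝕜 X n).comp T) (hAC n)
  have hΦ := (nec_main 𝕜 hX (e : Lp X ⊤ I01 →L[𝕜] lp (fun _ : ℕ => X) ⊤)
    (e.symm : lp (fun _ : ℕ => X) ⊤ →L[𝕜] Lp X ⊤ I01) (fun f => e.symm_apply_apply f)).1
  obtain ⟨Ψ, hΨ⟩ := exists_psi 𝕜 hΦ T P hPT hl1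
  exact ⟨(show_lim 𝕜 X).2 hΦ, der_of_psi 𝕜 Ψ hΨ⟩

/-- Sufficiency, for all Banach spaces. -/
theorem sufficiency (𝕜 : Type) [RCLike 𝕜] (X : Type u) [NormedAddCommGroup X] [NormedSpace 𝕜 X]
    [CompleteSpace X] (h1 : LimitExtends 𝕜 X) (h2 : DerivativeExtends 𝕜 X) :
    Isomorphic 𝕜 X := by
  let _ : NormedSpace ℝ X := NormedSpace.restrictScalars ℝ 𝕜 X
  have _ : IsScalarTower ℝ 𝕜 X := RestrictScalars.isScalarTower ℝ 𝕜 X
  rw [show_iso]
  exact Pool.Agent.Helper234.LInfS.suff 𝕜 X ((show_lim 𝕜 X).1 h1) (rep_of_der 𝕜 h2)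

theorem der_of_rnp' (𝕜 : Type) [RCLike 𝕜] (X : Type u) [NormedAddCommGroup X] [NormedSpace 𝕜 X]
    [CompleteSpace X] (h : Show.RNP 𝕜 X) : DerivativeExtends 𝕜 X := by
  let _ : NormedSpace ℝ X := NormedSpace.restrictScalars ℝ 𝕜 X
  have _ : IsScalarTower ℝ 𝕜 X := RestrictScalars.isScalarTower ℝ 𝕜 X
  exact der_of_rnp 𝕜 h

/-- For a Banach space `X` without a copy of the space of bounded scalar sequences, the two spaces
of the question are isomorphic exactly when the limit and the derivative both extend. They are not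
isomorphic when such a space contains a copy of the space of null sequences. For spaces with the
Radon-Nikodym property they are isomorphic exactly when the limit extends. -/
theorem result (𝕜 : Type) [RCLike 𝕜] (X : Type u) [NormedAddCommGroup X] [NormedSpace 𝕜 X]
    [CompleteSpace X] :
    (¬ Show.ContainsLinf 𝕜 X → (Isomorphic 𝕜 X ↔ LimitExtends 𝕜 X ∧ DerivativeExtends 𝕜 X)) ∧
    (¬ Show.ContainsLinf 𝕜 X → Show.ContainsC0 𝕜 X → ¬ Isomorphic 𝕜 X) ∧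
    (Show.RNP 𝕜 X → (Isomorphic 𝕜 X ↔ LimitExtends 𝕜 X)) := by
  refine ⟨fun hX => ⟨necessity 𝕜 X hX, fun h => sufficiency 𝕜 X h.1 h.2⟩,
    fun hX h0 h => ?_, fun hR => ⟨fun h => ?_, fun h => sufficiency 𝕜 X h (der_of_rnp' 𝕜 X hR)⟩⟩
  · exact c0_no_limit 𝕜 X (fun h => hX ((show_linf 𝕜 X).2 h)) h0
      ((show_lim 𝕜 X).1 (necessity 𝕜 X hX h).1)
  · exact (necessity 𝕜 X (fun h' => rnp_linf_free 𝕜 X hR ((show_linf 𝕜 X).1 h')) h).1

end Pool.Agent.Results.MP_85d466_an.Classification
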