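import Pool.Agent.Helper234.LInf.Show
import Pool.Agent.Helper234.LInf.ShowEq
import Pool.Agent.Results.MP_85d466_an.Classification
import Pool.Agent.Helper67.LInf.Show2
import Pool.Agent.Helper67.LInf.Fin2

open MeasureTheory

namespace Pool.Agent.Results.MP_85d466_an.Determination

open Pool.Agent.Helper234.LInf Pool.Agent.Helper234.LInf.Show
open Pool.Agent.Helper67.LInf Pool.Agent.Helper67.LInf.Show

universe u v

theorem criterion (𝕜 : Type) [RCLike 𝕜] (X : Type u) (Y : Type v)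
    [NormedAddCommGroup X] [NormedSpace 𝕜 X] [CompleteSpace X]
    [NormedAddCommGroup Y] [NormedSpace 𝕜 Y]
    (hY : ¬ ComplIn 𝕜 (BoundedContinuousFunction ℕ (ZeroAtInftyContinuousMap ℕ 𝕜)) Y)
    (hXY : ComplIn 𝕜 X (BoundedContinuousFunction ℕ Y)) :
    (Isomorphic 𝕜 X ↔ LimitExtends 𝕜 X ∧ DerivativeExtends 𝕜 X) ∧
      (Show.ContainsC0 𝕜 X → ¬ Isomorphic 𝕜 X) := by
  refine ⟨⟨fun h => ?_, fun h => Classification.sufficiency 𝕜 X h.1 h.2⟩, fun h1 h => ?_⟩
  · by_cases hl : Show.ContainsLinf 𝕜 X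
    · exfalso
      have h1 : Pool.Agent.Helper234.LInf.ContainsC0 𝕜 X := c0_of_linf ((show_linf 𝕜 X).1 hl)
      exact neg_iso h1 hY hXY ((show_iso 𝕜 X).1 h)
    · exact Classification.necessity 𝕜 X hl h
  · exact neg_iso h1 hY hXY ((show_iso 𝕜 X).1 h)

/-- Let `X` be a Banach space with no complemented copy of `ℓ^∞(c₀)` or, more generally, a Banach
space complemented in `ℓ^∞(Y)` for some `Y` with no complemented copy of `ℓ^∞(c₀)`. Then the two
spaces of the question are isomorphic exactly when the limit and the derivative extend, and they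
are not isomorphic when `X` contains `c₀`. The last part shows that the restriction is needed: every
Banach space is complemented in one for which the two spaces of the question are isomorphic
although the limit does not extend. -/
theorem result (𝕜 : Type) [RCLike 𝕜] :
    (∀ (X : Type u) [NormedAddCommGroup X] [NormedSpace 𝕜 X] [CompleteSpace X],
      ¬ ComplIn 𝕜 (BoundedContinuousFunction ℕ (ZeroAtInftyContinuousMap ℕ 𝕜)) X →
      (Isomorphic 𝕜 X ↔ LimitExtends 𝕜 X ∧ DerivativeExtends 𝕜 X) ∧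
        (Show.ContainsC0 𝕜 X → ¬ Isomorphic 𝕜 X)) ∧
    (∀ (X : Type u) (Y : Type v) [NormedAddCommGroup X] [NormedSpace 𝕜 X] [CompleteSpace X]
      [NormedAddCommGroup Y] [NormedSpace 𝕜 Y] [CompleteSpace Y],
      ¬ ComplIn 𝕜 (BoundedContinuousFunction ℕ (ZeroAtInftyContinuousMap ℕ 𝕜)) Y →
      ComplIn 𝕜 X (BoundedContinuousFunction ℕ Y) →
      (Isomorphic 𝕜 X ↔ LimitExtends 𝕜 X ∧ DerivativeExtends 𝕜 X) ∧
        (Show.ContainsC0 𝕜 X → ¬ Isomorphic 𝕜 X)) ∧
    (∀ (W : Type u) [NormedAddCommGroup W] [NormedSpace 𝕜 W] [CompleteSpace W],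
      ∃ (V : Type u) (_ : NormedAddCommGroup V) (_ : NormedSpace 𝕜 V) (_ : CompleteSpace V),
        ComplIn 𝕜 W V ∧ Isomorphic 𝕜 V ∧ ¬ LimitExtends 𝕜 V) := by
  refine ⟨?_, ?_, ?_⟩
  · intro X _ _ _ hX
    exact criterion 𝕜 X X hX (complIn_self_linf 𝕜 X)
  · intro X Y _ _ _ _ _ _ hY hXY
    exact criterion 𝕜 X Y hY hXY
  · intro W _ _ _
    obtain ⟨V, h1, h2, h3, h4, h5, h6⟩ := exists_V 𝕜 W
    exact ⟨V, h1, h2, h3, h4, (show_iso 𝕜 V).2 h5, fun h => h6 ((show_lim 𝕜 V).1 h)⟩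

end Pool.Agent.Results.MP_85d466_an.Determination
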