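import Pool.Agent.Helper234.LInf.UncondCor

open MeasureTheory Filter Topology

namespace Pool.Agent.Results.MP_85d466_an.UnconditionalBasis

open Pool.Agent.Helper234.LInf

universe u

/-- For every real or complex Banach space `X` with an unconditional basis (with coordinate
functionals `c` and basis vectors `e`), the Banach space of essentially bounded strongly measurable
functions from the unit interval to `X` is isomorphic to the space of bounded sequences in `X`
exactly when `X` contains no isomorphic copy of the space of null scalar sequences. -/
theorem result (𝕜 : Type) [RCLike 𝕜] (X : Type u) [NormedAddCommGroup X] [NormedSpace 𝕜 X]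
    [CompleteSpace X] (h : ∃ (e : ℕ → X) (c : ℕ → X →L[𝕜] 𝕜), Show.UncondBasis 𝕜 e c) :
    Show.Isomorphic 𝕜 X ↔ ¬ Show.ContainsC0 𝕜 X :=
  uncond_iff 𝕜 X h

end Pool.Agent.Results.MP_85d466_an.UnconditionalBasis
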